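import Pool.Agent.H43.PM.H53.MID.Top
import Pool.Agent.H43.PM.M13

/-!
# MID Comb: the combinatorial theorem

Proof.  `J` = the least natural number `≥ 1` with `n ≤ P^(J-1)`; `J ≤ Jm + 1`.  If `J = 1` then `n = 1` and `n P ≤ P^J ≤ n P^2` are clear;
if `J ≥ 2` then `P^(J-2) < n` so `P^J < n P^2`, `P^J ≥ n P`.  `tower C J` gives `D_J, e_J` for each `J ≤ Jm+1`: take `D1` = the maximum of the `D_J` (`J ≤ Jm+1`),
`e1` = the maximum of the `e_J` (`δ ≤ 1`: `δ^e1 ≤ δ^e_J`; `Desc` and the bounds are monotone in `D`); then `top D1` with `ρ = δ^e1/D1`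
(so `D1 ≤ D'`...).  Everything is monotone in `D` and `e` as long as `δ ≤ 1`; take `D` and `e` large enough (e.g. `e = 2 e1`, `D = 100 D1^2 D'`).
-/

set_option autoImplicit false

namespace Pool.Agent.H53.MID

open Finset

private theorem Comb_exists_level (n P Jm : ℕ) (hP : 1 ≤ P) (hn : 1 ≤ n) (h : n ≤ P ^ Jm) :
    ∃ j : ℕ, j ≤ Jm ∧ (n : ℝ) * P ≤ (P : ℝ) ^ (j + 1) ∧ (P : ℝ) ^ (j + 1) ≤ n * (P : ℝ) ^ 2 := by
  classical
  have hex : ∃ j : ℕ, n ≤ P ^ j := ⟨Jm, h⟩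
  refine ⟨Nat.find hex, Nat.find_min' hex h, ?_, ?_⟩
  · have h1 : n ≤ P ^ (Nat.find hex) := Nat.find_spec hex
    have h2 : (n : ℝ) ≤ (P : ℝ) ^ (Nat.find hex) := by exact_mod_cast h1
    rw [pow_succ]
    exact mul_le_mul_of_nonneg_right h2 (Nat.cast_nonneg P)
  · rcases Nat.eq_zero_or_pos (Nat.find hex) with h0 | h0
    · rw [h0]
      have h1 : (1 : ℝ) ≤ n := by exact_mod_cast hn
      have h2 : (1 : ℝ) ≤ P := by exact_mod_cast hP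
      have h3 : (P : ℝ) ≤ (P : ℝ) ^ 2 := by nlinarith
      have h4 : (P : ℝ) ^ 2 ≤ n * (P : ℝ) ^ 2 := by nlinarith [sq_nonneg (P : ℝ)]
      have h5 : (P : ℝ) ^ (0 + 1) = P := by ring
      rw [h5]
      exact h3.trans h4
    · obtain ⟨i, hi⟩ : ∃ i, Nat.find hex = i + 1 := ⟨Nat.find hex - 1, by omega⟩
      rw [hi]
      have h1 : ¬ n ≤ P ^ i := Nat.find_min hex (by omega)
      have h2 : P ^ i ≤ n := by omega
      have h3 : (P : ℝ) ^ i ≤ n := by exact_mod_cast h2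
      have h4 : (P : ℝ) ^ (i + 1 + 1) = (P : ℝ) ^ i * (P : ℝ) ^ 2 := by ring
      rw [h4]
      exact mul_le_mul_of_nonneg_right h3 (by positivity)

theorem comb (C : ℝ) (hC : 1 ≤ C) (Jm : ℕ) : ∃ (D : ℝ) (e : ℕ), 1 ≤ D ∧ ∀ (n P : ℕ) (δ η : ℝ)
    (F0 G0 : Finset ℕ) (α β : ℕ → ℝ) (R0 : Finset (ℕ × ℕ × ℕ)), Rel C n P (η * P) F0 G0 α β R0 → 0 < δ → δ ≤ 1 →
    0 ≤ η → D * η * (P : ℝ) ^ 3 ≤ δ ^ e → D ≤ δ ^ e * P → 1 ≤ n → n ≤ P ^ Jm → δ * n * P ≤ R0.card →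
    ∃ (d : ℕ) (b : ℕ) (T : ℝ) (F1 : Finset ℕ), 1 ≤ d ∧ d * δ ^ e ≤ D ∧ |T| * δ ^ e ≤ D * η * (n : ℝ) ^ 2 ∧
      F1 ⊆ F0 ∧ δ ^ e * n ≤ D * F1.card ∧ ∀ i ∈ F1, nz (α i - b / d - T / i) * δ ^ e ≤ D * η := by
  classical
  have htow := fun j : ℕ => tower C hC (j + 1) (by omega)
  choose Dt et hDt htow using htow
  obtain ⟨D1, hD1⟩ : ∃ D1 : ℝ, D1 = C + ∑ j ∈ range (Jm + 1), Dt j := ⟨_, rfl⟩
  obtain ⟨e1, he1⟩ : ∃ e1 : ℕ, e1 = ∑ j ∈ range (Jm + 1), et j := ⟨_, rfl⟩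
  have hsum0 : 0 ≤ ∑ j ∈ range (Jm + 1), Dt j :=
    Finset.sum_nonneg fun j _ => le_trans zero_le_one (hDt j)
  have hD1C : C ≤ D1 := by rw [hD1]; linarith
  have hD11 : 1 ≤ D1 := hC.trans hD1C
  have hDtj : ∀ j ≤ Jm, Dt j ≤ D1 := by
    intro j hj
    have h1 : Dt j ≤ ∑ j ∈ range (Jm + 1), Dt j :=
      Finset.single_le_sum (f := Dt) (fun j _ => le_trans zero_le_one (hDt j))
        (Finset.mem_range.mpr (by omega))
    rw [hD1]; linarith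
  have hetj : ∀ j ≤ Jm, et j ≤ e1 := by
    intro j hj
    rw [he1]
    exact Finset.single_le_sum (f := et) (fun j _ => Nat.zero_le _) (Finset.mem_range.mpr (by omega))
  obtain ⟨D', hD'1, htop⟩ := top D1 hD11
  have hD1sq : 1 ≤ D1 ^ 2 := one_le_pow₀ hD11
  have hprod : 1 ≤ D1 ^ 2 * D' := by nlinarith
  refine ⟨100 * (D1 ^ 2 * D'), 2 * e1, by linarith, ?_⟩
  intro n P δ η F0 G0 α β R0 hR hδ0 hδ1 hη hηP hDP hn hnP hR0
  set D : ℝ := 100 * (D1 ^ 2 * D') with hDdef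
  have hD100 : 100 ≤ D := by rw [hDdef]; linarith
  have hD1D' : D1 * D' ≤ D := by
    rw [hDdef]; nlinarith [mul_nonneg (sub_nonneg.mpr hD11) (by positivity : (0:ℝ) ≤ D1 * D')]
  have hD1D'2 : D1 ^ 2 * D' ≤ D := by rw [hDdef]; linarith
  have hD1D : D1 ≤ D := by nlinarith
  have hδe1 : δ ^ (2 * e1) ≤ 1 := pow_le_one₀ hδ0.le hδ1
  have hδe0 : 0 < δ ^ (2 * e1) := by positivity
  have hδ10 : 0 < δ ^ e1 := by positivity
  have hδ11 : δ ^ e1 ≤ 1 := pow_le_one₀ hδ0.le hδ1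
  have hδ21 : δ ^ (2 * e1) ≤ δ ^ e1 := pow_le_pow_of_le_one hδ0.le hδ1 (by omega)
  have hPr : D ≤ (P : ℝ) := by
    have : δ ^ (2 * e1) * (P : ℝ) ≤ 1 * P := mul_le_mul_of_nonneg_right hδe1 (Nat.cast_nonneg P)
    linarith
  have hP1 : (1 : ℝ) ≤ P := by linarith
  have hP1n : 1 ≤ P := by exact_mod_cast hP1
  obtain ⟨j, hj, hlo, hhi⟩ := Comb_exists_level n P Jm hP1n hn hnP
  have hδj : δ ^ (2 * e1) ≤ δ ^ et j := pow_le_pow_of_le_one hδ0.le hδ1 (by have := hetj j hj; omega)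
  have hδj1 : δ ^ e1 ≤ δ ^ et j := pow_le_pow_of_le_one hδ0.le hδ1 (hetj j hj)
  have hP3 : (0 : ℝ) ≤ η * (P : ℝ) ^ 3 := by positivity
  obtain ⟨K, w, S, hK1, hK2, hdesc, hS⟩ := htow j n P δ η F0 G0 α β R0 hR hδ0 hδ1 hη
    (by nlinarith) (by
      have h1 : Dt j ≤ D := (hDtj j hj).trans hD1D
      have h2 : δ ^ (2 * e1) * (P : ℝ) ≤ δ ^ et j * P := mul_le_mul_of_nonneg_right hδj (Nat.cast_nonneg P)
      linarith) hn hR0
  have hDj0 : 0 < Dt j := lt_of_lt_of_le zero_lt_one (hDt j)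
  have hD10 : 0 < D1 := lt_of_lt_of_le zero_lt_one hD11
  have hn0 : (0 : ℝ) ≤ n := Nat.cast_nonneg n
  have hPJ0 : (0 : ℝ) ≤ (P : ℝ) ^ (j + 1) := by positivity
  have hdesc' : Desc P (j + 1) D1 (D1 * η) F0 α K w S := by
    refine ⟨hdesc.mem, hdesc.lo, hdesc.hi, ?_, ?_⟩
    · intro t ht
      exact (hdesc.pos t ht).trans (mul_le_mul_of_nonneg_right (hDtj j hj) hPJ0)
    · intro t ht
      exact (hdesc.freq t ht).trans (mul_le_mul_of_nonneg_right (hDtj j hj) hη)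
  obtain ⟨ρ, hρ⟩ : ∃ ρ : ℝ, ρ = δ ^ e1 / D1 := ⟨_, rfl⟩
  have hρ0 : 0 < ρ := by rw [hρ]; positivity
  have hρD : ρ * D1 = δ ^ e1 := by rw [hρ]; field_simp
  have hρ1 : ρ ≤ 1 := by
    rw [hρ, div_le_one hD10]; linarith
  have hD'0 : 0 < D' := lt_of_lt_of_le zero_lt_one hD'1
  obtain ⟨d, b, T, F1, hd1, hd2, hT, hF1, hF2, hi⟩ := htop n P (j + 1) K ρ η w F0 α S hn hP1n hρ0 hρ1 hη
    hlo hhi (by
      intro i hi
      obtain ⟨h1, h2⟩ := hR.rngF i hi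
      constructor
      · refine le_trans ?_ h1
        exact div_le_div_of_nonneg_left hn0 (lt_of_lt_of_le zero_lt_one hC) hD1C
      · exact h2.trans (mul_le_mul_of_nonneg_right hD1C hn0))
    (by
      refine le_trans ?_ hK1
      exact div_le_div_of_nonneg_left hn0 hDj0 (hDtj j hj))
    (hK2.trans (mul_le_mul_of_nonneg_right (hDtj j hj) hn0))
    (by
      -- D' ≤ ρ P
      have h1 : D ≤ δ ^ e1 * P := hDP.trans (mul_le_mul_of_nonneg_right hδ21 (Nat.cast_nonneg P))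
      rw [← hρD] at h1
      have h2 : D1 * D' ≤ D1 * (ρ * P) := by nlinarith
      exact le_of_mul_le_mul_left h2 hD10)
    (by
      have h1 : D * η * (P : ℝ) ^ 3 ≤ ρ * D1 := by rw [hρD]; exact hηP.trans hδ21
      have h2 : (P : ℝ) ^ 2 ≤ (P : ℝ) ^ 3 := pow_le_pow_right₀ hP1 (by norm_num)
      have h3 : D1 * D' * (η * (P : ℝ) ^ 2) ≤ D * (η * (P : ℝ) ^ 3) :=
        mul_le_mul hD1D' (mul_le_mul_of_nonneg_left h2 hη) (by positivity) (by linarith)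
      have h4 : D1 * (D' * η * (P : ℝ) ^ 2) ≤ D1 * ρ := by nlinarith
      exact le_of_mul_le_mul_left h4 hD10)
    hdesc' (by
      refine le_trans ?_ hS
      refine mul_le_mul_of_nonneg_right ?_ hPJ0
      rw [hρ]
      exact div_le_div₀ (by positivity) hδj1 hDj0 (hDtj j hj))
  refine ⟨d, b, T, F1, hd1, ?_, ?_, hF1, ?_, ?_⟩
  · have h0 : (0 : ℝ) ≤ d := Nat.cast_nonneg d
    have h1 : (d : ℝ) * δ ^ (2 * e1) ≤ d * δ ^ e1 := mul_le_mul_of_nonneg_left hδ21 h0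
    have h2 : (d : ℝ) * δ ^ e1 = d * ρ * D1 := by rw [← hρD]; ring
    have h3 : (d : ℝ) * ρ * D1 ≤ D' * D1 := mul_le_mul_of_nonneg_right hd2 hD10.le
    linarith [mul_comm D' D1]
  · have h0 : (0 : ℝ) ≤ |T| := abs_nonneg T
    have h1 : |T| * δ ^ (2 * e1) ≤ |T| * δ ^ e1 := mul_le_mul_of_nonneg_left hδ21 h0
    have h2 : |T| * δ ^ e1 = |T| * ρ * D1 := by rw [← hρD]; ring
    have h3 : |T| * ρ * D1 ≤ D' * η * (n : ℝ) ^ 2 * D1 := mul_le_mul_of_nonneg_right hT hD10.le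
    have h4 : D1 * D' * (η * (n : ℝ) ^ 2) ≤ D * (η * (n : ℝ) ^ 2) :=
      mul_le_mul_of_nonneg_right hD1D' (by positivity)
    nlinarith
  · have h1 : δ ^ (2 * e1) = ρ ^ 2 * D1 ^ 2 := by
      rw [two_mul, pow_add, ← hρD]; ring
    rw [h1]
    have h2 : ρ ^ 2 * n * D1 ^ 2 ≤ D' * F1.card * D1 ^ 2 := mul_le_mul_of_nonneg_right hF2 (by positivity)
    have h3 : D1 ^ 2 * D' * (F1.card : ℝ) ≤ D * F1.card := mul_le_mul_of_nonneg_right hD1D'2 (Nat.cast_nonneg _)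
    nlinarith
  · intro i hiF
    have h0 := nz_nonneg (α i - b / d - T / i)
    have h1 : nz (α i - b / d - T / i) * δ ^ (2 * e1) ≤ nz (α i - b / d - T / i) * δ ^ e1 :=
      mul_le_mul_of_nonneg_left hδ21 h0
    have h2 : nz (α i - b / d - T / i) * δ ^ e1 = nz (α i - b / d - T / i) * ρ * D1 := by rw [← hρD]; ring
    have h3 : nz (α i - b / d - T / i) * ρ * D1 ≤ D' * η * D1 := mul_le_mul_of_nonneg_right (hi i hiF) hD10.le
    have h4 : D1 * D' * η ≤ D * η := mul_le_mul_of_nonneg_right hD1D' hη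
    nlinarith

end Pool.Agent.H53.MID
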