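import Pool.Agent.H43.PM.H53.MID.Nz
import Pool.Agent.H43.PM.M04

/-!
# MID Win: one block, multiplicative windows

`θ = 1/(n L^C3)`, `C3 = A + C2 + 3`, `U = [log(iH), log((i+1)H) - θ)`.  Claim: `θ H/(2 L^A) ≤ ∫_U ‖Dw (cc f P a T) X θ u‖ du`.
Proof.  `nz (α - a - T/(iH)) ≤ L^C2/H`: `α = a + T/(iH) + ρ + r`, `r ∈ ℤ`, `|ρ| ≤ L^C2/H`.  `φ(y) = T log y - T y/(iH) - ρ y`, so `ee(-(m α)) = ee(-(m a)) ee(-(T log m)) ee(φ(m))` for natural `m ≥ 1`, i.e.
`Bs (Fp f P) H i α = ∑_{m ∈ I} cc m ee(φ m)`, `I = [iH, (i+1)H)`, `cc = cc f P a T`.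
On `[iH, (i+1)H]`: `|φ'(y)| = |T/y - T/(iH) - ρ| ≤ |T| H/(iH)^2 + L^C2/H ≤ (C^2 + 1) L^C2/H` (`|T| ≤ L^C2 n^2`, `i ≥ n/C`).
For every `m`: `θ = ∫ 1[u < log m ≤ u + θ] du`, so `θ Bs = ∫ ∑_{m ∈ I, u < log m ≤ u+θ} cc m ee(φ m) du`.
For `u ∈ U` all `m` with `u < log m ≤ u + θ` are in `I` (and `≤ X`), and `|φ(m) - φ(e^u)| ≤ (C^2+1) L^C2/H · e^u (e^θ - 1) ≤ (C^2+1) L^C2/H · 2 θ (i+1) H ≤ 8 C^3 L^(C2-C3)` (`i + 1 ≤ 2 C n`), so the inner sum is
`ee(φ(e^u)) Dw(u) + O(2π 8 C^3 L^(C2-C3) ∑_{m ∈ W_u} ‖cc m‖)`, and `∫ ∑_{m ∈ W_u} ‖cc m‖ du ≤ θ ∑_{m ∈ I} |Fp f P m| ≤ 3 θ H L^2` (`fp_l1`; `P (w0 + 1) ≤ H`).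
The `u ∉ U` with nonzero inner sum lie in `[log(iH) - θ, log(iH))` or `[log((i+1)H) - θ, log((i+1)H))`, and there the inner sum is `≤ ∑_{m ∈ W_u} |Fp f P m|`, `W_u` contained in an interval of
integers of length `≤ 2 θ (i+1) H + 1 ≤ 5 C H/L^C3`, so `≤ 8 C H L^(2-C3)` by `fp_l1` (`P w0 ≤ H/L^(C3+1)`).
So `θ H/L^A ≤ ∫_U ‖Dw‖ + 48 π C^3 L^(C2-C3) θ H L^2 + 16 C θ H L^(2-C3)`, and the last two terms are `≤ θ H/(2 L^A)` for `L ≥ L0(C)`.
-/

set_option autoImplicit false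

namespace Pool.Agent.H53.MID

open Finset MeasureTheory
open Pool.Agent.H91.PK (ee)

private theorem Win_ee_add (s t : ℝ) : ee (s + t) = ee s * ee t := by
  unfold ee
  rw [← Complex.exp_add]
  congr 1
  push_cast
  ring

private theorem Win_norm_ee (t : ℝ) : ‖ee t‖ = 1 := by
  unfold ee
  have : (2 * Real.pi * t * Complex.I : ℂ) = ((2 * Real.pi * t : ℝ) : ℂ) * Complex.I := by
    push_cast; ring
  rw [this]
  exact Complex.norm_exp_ofReal_mul_I _

private theorem Win_ee_int (k : ℤ) : ee (k : ℝ) = 1 := by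
  unfold ee
  rw [Complex.exp_eq_one_iff]
  exact ⟨k, by push_cast; ring⟩

private theorem Win_ee_sub (s t : ℝ) : ‖ee s - ee t‖ ≤ 2 * Real.pi * |s - t| := by
  have h1 : ee s - ee t = ee t * (ee (s - t) - 1) := by
    have : ee s = ee t * ee (s - t) := by rw [← Win_ee_add]; congr 1; ring
    rw [this]; ring
  rw [h1, norm_mul, Win_norm_ee, one_mul]
  have h2 : ee (s - t) = Complex.exp (Complex.I * ((2 * Real.pi * (s - t) : ℝ) : ℂ)) := by
    unfold ee
    congr 1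
    push_cast
    ring
  rw [h2]
  refine (Real.norm_exp_I_mul_ofReal_sub_one_le).trans (le_of_eq ?_)
  rw [Real.norm_eq_abs, abs_mul, abs_of_pos (by positivity : (0:ℝ) < 2 * Real.pi)]

/-- the phase is Lipschitz on the block -/
private theorem Win_lip (T ρ x0 H y1 y2 : ℝ) (hx : 0 < x0) (hH : 0 ≤ H) (h1 : x0 ≤ y1) (h12 : y1 ≤ y2)
    (h2 : y2 ≤ x0 + H) :
    |(T * Real.log y2 - T * y2 / x0 - ρ * y2) - (T * Real.log y1 - T * y1 / x0 - ρ * y1)| ≤
      (|T| * H / x0 ^ 2 + |ρ|) * (y2 - y1) := by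
  have hy1 : 0 < y1 := lt_of_lt_of_le hx h1
  have hy2 : 0 < y2 := lt_of_lt_of_le hy1 h12
  have e1 : (T * Real.log y2 - T * y2 / x0 - ρ * y2) - (T * Real.log y1 - T * y1 / x0 - ρ * y1) =
      T * (Real.log y2 - Real.log y1 - (y2 - y1) / x0) - ρ * (y2 - y1) := by
    field_simp
    ring
  rw [e1]
  have e2 : |T * (Real.log y2 - Real.log y1 - (y2 - y1) / x0) - ρ * (y2 - y1)| ≤
      |T| * |Real.log y2 - Real.log y1 - (y2 - y1) / x0| + |ρ| * (y2 - y1) := by
    refine (abs_sub _ _).trans ?_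
    rw [abs_mul, abs_mul, abs_of_nonneg (by linarith : 0 ≤ y2 - y1)]
  refine e2.trans ?_
  have e3 : |Real.log y2 - Real.log y1 - (y2 - y1) / x0| ≤ H / x0 ^ 2 * (y2 - y1) := by
    have hup : Real.log y2 - Real.log y1 ≤ (y2 - y1) / y1 := by
      rw [← Real.log_div hy2.ne' hy1.ne']
      refine (Real.log_le_sub_one_of_pos (by positivity)).trans (le_of_eq ?_)
      field_simp
    have hlo : (y2 - y1) / y2 ≤ Real.log y2 - Real.log y1 := by
      have := Real.log_le_sub_one_of_pos (by positivity : 0 < y1 / y2)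
      rw [Real.log_div hy1.ne' hy2.ne'] at this
      have h3 : y1 / y2 - 1 = -((y2 - y1) / y2) := by field_simp; ring
      linarith
    have hA : (y2 - y1) / y1 ≤ (y2 - y1) / x0 :=
      div_le_div_of_nonneg_left (by linarith) hx h1
    have hB : (y2 - y1) / x0 - (y2 - y1) / y2 ≤ H / x0 ^ 2 * (y2 - y1) := by
      have : (y2 - y1) / x0 - (y2 - y1) / y2 = (y2 - y1) * ((y2 - x0) / (x0 * y2)) := by
        field_simp
      rw [this, mul_comm (H / x0 ^ 2)]
      refine mul_le_mul_of_nonneg_left ?_ (by linarith)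
      rw [div_le_div_iff₀ (by positivity) (by positivity)]
      have h4 : y2 - x0 ≤ H := by linarith
      have h5 : x0 ≤ y2 := h1.trans h12
      calc (y2 - x0) * x0 ^ 2 ≤ H * x0 ^ 2 := mul_le_mul_of_nonneg_right h4 (by positivity)
        _ = H * (x0 * x0) := by ring
        _ ≤ H * (x0 * y2) := mul_le_mul_of_nonneg_left (mul_le_mul_of_nonneg_left h5 hx.le) hH
    rw [abs_le]
    constructor
    · linarith
    · have : 0 ≤ H / x0 ^ 2 * (y2 - y1) := mul_nonneg (by positivity) (by linarith)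
      linarith
  have hT := abs_nonneg T
  calc |T| * |Real.log y2 - Real.log y1 - (y2 - y1) / x0| + |ρ| * (y2 - y1)
      ≤ |T| * (H / x0 ^ 2 * (y2 - y1)) + |ρ| * (y2 - y1) := by
        linarith [mul_le_mul_of_nonneg_left e3 hT]
    _ = _ := by ring

private theorem Win_int_ind {E : Type*} [NormedAddCommGroup E] [NormedSpace ℝ E] [CompleteSpace E]
    (lo hi x θ : ℝ) (h1 : lo ≤ x - θ) (h2 : x ≤ hi) (hθ : 0 ≤ θ) (c : E) :
    ∫ u in Set.Ico lo hi, (Set.Ico (x - θ) x).indicator (fun _ => c) u = θ • c := by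
  rw [integral_indicator measurableSet_Ico, Measure.restrict_restrict measurableSet_Ico]
  have h3 : Set.Ico (x - θ) x ∩ Set.Ico lo hi = Set.Ico (x - θ) x := by
    rw [Set.inter_eq_left]
    intro u hu
    exact ⟨h1.trans hu.1, lt_of_lt_of_le hu.2 h2⟩
  rw [h3, setIntegral_const, measureReal_def, Real.volume_Ico, ENNReal.toReal_ofReal (by linarith)]
  congr 1
  ring

/-- a window contains few integers; the sum of `|g|` over it -/
private theorem Win_window (g : ℕ → ℝ) (I : Finset ℕ) (y D B : ℝ) (hy : 0 ≤ y) (hD : 0 ≤ D)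
    (hB : ∑ m ∈ Ico (⌊y⌋₊ + 1) (⌊y⌋₊ + 1 + (⌊D⌋₊ + 1)), |g m| ≤ B)
    (p : ℕ → Prop) [DecidablePred p] (hp : ∀ m ∈ I, p m → y < m ∧ (m : ℝ) ≤ y + D) :
    ∑ m ∈ I.filter p, |g m| ≤ B := by
  refine le_trans ?_ hB
  refine sum_le_sum_of_subset_of_nonneg ?_ (fun _ _ _ => abs_nonneg _)
  intro m hm
  rw [mem_filter] at hm
  obtain ⟨h1, h2⟩ := hp m hm.1 hm.2
  rw [mem_Ico]
  have h3 : ⌊y⌋₊ < m := (Nat.floor_lt hy).mpr h1
  refine ⟨h3, ?_⟩
  have h4 : (m : ℝ) - (⌊y⌋₊ + 1) < D := by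
    have := Nat.lt_floor_add_one y
    linarith
  have h5 : ((m - (⌊y⌋₊ + 1) : ℕ) : ℝ) < D := by
    rw [Nat.cast_sub h3]
    push_cast
    exact h4
  have h6 : m - (⌊y⌋₊ + 1) ≤ ⌊D⌋₊ := Nat.le_floor h5.le
  omega

private theorem Win_ind_filter {E : Type*} [AddCommMonoid E] (J : Finset ℕ) (e : ℕ → E) (θ u : ℝ) :
    ∑ m ∈ J, (Set.Ico (Real.log m - θ) (Real.log m)).indicator (fun _ => e m) u =
      ∑ m ∈ J.filter (fun m : ℕ => u < Real.log m ∧ Real.log m ≤ u + θ), e m := by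
  rw [sum_filter]
  refine sum_congr rfl (fun m _ => ?_)
  rw [Set.indicator_apply]
  have h : (u < Real.log m ∧ Real.log m ≤ u + θ) ↔ u ∈ Set.Ico (Real.log m - θ) (Real.log m) := by
    rw [Set.mem_Ico]
    constructor
    · rintro ⟨h1, h2⟩; exact ⟨by linarith, h1⟩
    · rintro ⟨h1, h2⟩; exact ⟨h2, by linarith⟩
  by_cases h3 : u < Real.log m ∧ Real.log m ≤ u + θ
  · rw [if_pos h3, if_pos (h.mp h3)]
  · rw [if_neg h3, if_neg (fun h4 => h3 (h.mpr h4))]

private theorem Win_Dw (c : ℕ → ℂ) (X : ℕ) (θ u : ℝ) :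
    Dw c X θ u = ∑ m ∈ Icc 1 X, (Set.Ico (Real.log m - θ) (Real.log m)).indicator (fun _ => c m) u := by
  rw [Win_ind_filter]
  rfl

private theorem Win_norm_cc (f : ℕ → ℝ) (P : ℕ) (a T : ℝ) (m : ℕ) : ‖cc f P a T m‖ = |Fp f P m| := by
  unfold cc
  rw [norm_mul, norm_mul, Win_norm_ee, Win_norm_ee, mul_one, mul_one, Complex.norm_real,
    Real.norm_eq_abs]

theorem win (C : ℝ) (hC : 1 ≤ C) (A C2 : ℕ) : ∃ L0 : ℝ, 1 ≤ L0 ∧ ∀ (L : ℝ) (n H P w0 X Xf i : ℕ) (f : ℕ → ℝ) (a T α : ℝ),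
    L0 ≤ L → 100 * C ≤ n → 1 ≤ w0 → 1 ≤ P → w0 * P * L ^ (A + C2 + 4) ≤ H → SqB f w0 Xf L →
    8 * C * n * H ≤ Xf → 4 * C * n * H ≤ X → (n : ℝ) / C ≤ i → (i : ℝ) ≤ C * n → |T| ≤ L ^ C2 * (n : ℝ) ^ 2 →
    nz (α - a - T / (i * H)) ≤ L ^ C2 / H → H / L ^ A ≤ ‖Bs (Fp f P) H i α‖ →
    1 / (n * L ^ (A + C2 + 3)) * H / (2 * L ^ A) ≤
      ∫ u in Set.Icc (Real.log (i * H)) (Real.log ((i + 1) * H)), ‖Dw (cc f P a T) X (1 / (n * L ^ (A + C2 + 3))) u‖ := by
  have hC3 : (1:ℝ) ≤ C ^ 3 := one_le_pow₀ hC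
  have hC2' : (1:ℝ) ≤ C ^ 2 := one_le_pow₀ hC
  have hCC3 : C ≤ C ^ 3 := by nlinarith [mul_le_mul_of_nonneg_left hC2' (by linarith : (0:ℝ) ≤ C)]
  refine ⟨1000 * C ^ 3, by linarith, ?_⟩
  intro L n H P w0 X Xf i f a T α hL hn hw hP hH hf hXf hX hi1 hi2 hT hnz hBs
  have hL1 : 1000 ≤ L := by linarith
  have hL0 : 0 < L := by linarith
  have hn0 : (100:ℝ) ≤ n := by nlinarith
  have hLp : ∀ k : ℕ, (1:ℝ) ≤ L ^ k := fun k => one_le_pow₀ (by linarith)
  have hw1 : (1:ℝ) ≤ w0 := by exact_mod_cast hw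
  have hP1 : (1:ℝ) ≤ P := by exact_mod_cast hP
  have hwP : (1:ℝ) ≤ w0 * P := by nlinarith
  have hwP' : (w0:ℝ) * P ≤ H / L ^ (A + C2 + 4) := by
    rw [le_div_iff₀ (by positivity)]; exact hH
  have hwPH : (w0:ℝ) * P ≤ H := hwP'.trans (div_le_self (by positivity) (hLp _))
  have hH1 : (1:ℝ) ≤ H := hwP.trans hwPH
  have hw0P : (w0:ℝ) ≤ w0 * P := by nlinarith
  have hPw : (P:ℝ) ≤ w0 * P := by nlinarith
  set C3 : ℕ := A + C2 + 3 with hC3d
  set θ : ℝ := 1 / (n * L ^ C3) with hθ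
  have hθ0 : 0 < θ := by positivity
  have hθ1 : θ ≤ 1 := by
    rw [hθ, div_le_one (by positivity)]
    nlinarith [hLp C3]
  have hi0 : (0:ℝ) < i := lt_of_lt_of_le (by positivity) hi1
  set x0 : ℝ := (i:ℝ) * H with hx0
  have hx0p : 0 < x0 := by positivity
  set y0 : ℝ := ((i:ℝ) + 1) * H with hy0
  have hy0p : 0 < y0 := by positivity
  have hxy : y0 = x0 + H := by rw [hx0, hy0]; ring
  set lo : ℝ := Real.log x0 with hlo
  set hi : ℝ := Real.log y0 with hhi
  have hlohi : lo ≤ hi := Real.log_le_log hx0p (by linarith)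
  have hCn : (100:ℝ) ≤ C * n := hn0.trans (le_mul_of_one_le_left (by linarith) hC)
  have hi3 : (i:ℝ) + 1 ≤ 2 * C * n := by
    have : 2 * C * n = 2 * (C * n) := by ring
    rw [this]
    linarith
  -- the phase
  obtain ⟨r, hr⟩ := nz_exists (α - a - T / x0)
  set ρ : ℝ := α - a - T / x0 - r with hρ
  have hρ1 : |ρ| ≤ L ^ C2 / H := by rw [hr]; exact hnz
  set φ : ℝ → ℝ := fun y => T * Real.log y - T * y / x0 - ρ * y with hφ
  set I : Finset ℕ := Ico (i * H) ((i + 1) * H) with hI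
  set c : ℕ → ℂ := fun m => cc f P a T m * ee (φ m) with hc
  have hIlo : ∀ m ∈ I, x0 ≤ (m:ℝ) := by
    intro m hm
    rw [hI, mem_Ico] at hm
    have : ((i * H : ℕ) : ℝ) ≤ m := by exact_mod_cast hm.1
    rw [hx0]; push_cast at this; exact this
  have hIhi : ∀ m ∈ I, (m:ℝ) < y0 := by
    intro m hm
    rw [hI, mem_Ico] at hm
    have : (m:ℝ) < (((i + 1) * H : ℕ) : ℝ) := by exact_mod_cast hm.2
    rw [hy0]; push_cast at this; exact this
  have hBsc : Bs (Fp f P) H i α = ∑ m ∈ I, c m := by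
    unfold Bs
    refine sum_congr rfl (fun m hm => ?_)
    rw [hc]
    show _ = cc f P a T m * ee (φ m)
    unfold cc
    have e1 : ee (-(m * α)) = ee (-(m * a)) * ee (-(T * Real.log m)) * ee (φ m) := by
      rw [← Win_ee_add, ← Win_ee_add]
      have e2 : -((m:ℝ) * a) + -(T * Real.log m) + φ m = -(m * α) + ((m * r : ℤ) : ℝ) := by
        rw [hφ, hρ]
        push_cast
        ring
      rw [e2, Win_ee_add, Win_ee_int, mul_one]
    rw [e1]
    ring
  -- the integral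
  set S : ℝ → ℂ := fun u => ∑ m ∈ I, (Set.Ico (Real.log m - θ) (Real.log m)).indicator (fun _ => c m) u with hS
  have hlogm : ∀ m ∈ I, lo ≤ Real.log m ∧ Real.log m ≤ hi := by
    intro m hm
    have h1 := hIlo m hm
    have h2 := hIhi m hm
    exact ⟨Real.log_le_log hx0p h1, Real.log_le_log (by linarith) h2.le⟩
  have hfin : ∀ {E : Type} [NormedAddCommGroup E] (e : E) (s : Set ℝ), MeasurableSet s → ∀ x y : ℝ,
      IntegrableOn (fun u => s.indicator (fun _ => e) u) (Set.Ico x y) := by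
    intro E _ e s hs x y
    refine Integrable.indicator ?_ hs
    exact integrableOn_const (by rw [Real.volume_Ico]; exact ENNReal.ofReal_ne_top)
  have hSint : ∫ u in Set.Ico (lo - θ) hi, S u = θ • ∑ m ∈ I, c m := by
    rw [hS]
    simp only
    rw [integral_finsetSum _ (fun m _ => hfin _ _ measurableSet_Ico _ _), smul_sum]
    refine sum_congr rfl (fun m hm => ?_)
    obtain ⟨h1, h2⟩ := hlogm m hm
    exact Win_int_ind _ _ _ _ (by linarith) h2 hθ0.le _
  -- window estimates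
  set D : ℝ := 4 * C * H / L ^ C3 with hD
  have hD0 : 0 ≤ D := by positivity
  have hDH : D ≤ 4 * C * H := div_le_self (by positivity) (hLp _)
  have hexp : ∀ u : ℝ, u ≤ hi → Real.exp (u + θ) ≤ Real.exp u + D := by
    intro u hu
    have h1 : Real.exp u ≤ y0 := by
      rw [← Real.exp_log hy0p]; exact Real.exp_le_exp.mpr hu
    have h2 : |Real.exp θ - 1| ≤ 2 * |θ| := Real.abs_exp_sub_one_le (by rw [abs_of_pos hθ0]; exact hθ1)
    rw [abs_of_pos hθ0] at h2
    have h3 : Real.exp θ - 1 ≤ 2 * θ := (le_abs_self _).trans h2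
    have h4 : Real.exp (u + θ) - Real.exp u = Real.exp u * (Real.exp θ - 1) := by
      rw [Real.exp_add]; ring
    have h5 : Real.exp u * (Real.exp θ - 1) ≤ y0 * (2 * θ) :=
      mul_le_mul h1 h3 (by have := Real.add_one_le_exp θ; linarith) hy0p.le
    have h6 : y0 * (2 * θ) ≤ D := by
      rw [hy0, hθ, hD]
      have : ((i:ℝ) + 1) * H * (2 * (1 / (n * L ^ C3))) = (((i:ℝ) + 1) * (2 * H / n)) / L ^ C3 := by
        field_simp
      rw [this]
      refine div_le_div_of_nonneg_right ?_ (by positivity)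
      calc ((i:ℝ) + 1) * (2 * H / n) ≤ (2 * C * n) * (2 * H / n) :=
            mul_le_mul_of_nonneg_right hi3 (by positivity)
        _ = 4 * C * H := by field_simp; ring
    linarith
  have hq : ∀ (u : ℝ) (m : ℕ), u ≤ hi → 1 ≤ m → (u < Real.log m ∧ Real.log m ≤ u + θ) →
      Real.exp u < m ∧ (m:ℝ) ≤ Real.exp u + D := by
    intro u m hu hm1 h
    have hm0 : (0:ℝ) < m := by exact_mod_cast hm1
    refine ⟨?_, ?_⟩
    · rw [← Real.exp_log hm0]; exact Real.exp_lt_exp.mpr h.1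
    · refine le_trans ?_ (hexp u hu)
      rw [← Real.exp_log hm0]; exact Real.exp_le_exp.mpr h.2
  have hI1 : ∀ m ∈ I, 1 ≤ m := by
    intro m hm
    have h1 := hIlo m hm
    have : (0:ℝ) < m := lt_of_lt_of_le hx0p h1
    exact_mod_cast this
  set B0 : ℝ := 8 * C * H * L ^ 2 / L ^ C3 with hB0
  have hB0' : 0 ≤ B0 := by positivity
  have hwin : ∀ u : ℝ, u ≤ hi →
      ∑ m ∈ I.filter (fun m : ℕ => u < Real.log m ∧ Real.log m ≤ u + θ), |Fp f P m| ≤ B0 := by
    intro u hu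
    refine Win_window (Fp f P) I (Real.exp u) D B0 (Real.exp_pos _).le hD0 ?_ _
      (fun m hm h => hq u m hu (hI1 m hm) h)
    have h1 : Real.exp u ≤ y0 := by
      rw [← Real.exp_log hy0p]; exact Real.exp_le_exp.mpr hu
    have h2 : (⌊Real.exp u⌋₊ : ℝ) ≤ y0 := (Nat.floor_le (Real.exp_pos _).le).trans h1
    have h3 : (⌊D⌋₊ : ℝ) ≤ D := Nat.floor_le hD0
    have h4 : (⌊Real.exp u⌋₊ + 1) + (⌊D⌋₊ + 1) + w0 + 2 ≤ Xf := by
      have h5 : (((⌊Real.exp u⌋₊ + 1) + (⌊D⌋₊ + 1) + w0 + 2 : ℕ) : ℝ) ≤ Xf := by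
        push_cast
        refine le_trans ?_ hXf
        have h6 : y0 ≤ (C * n + 1) * H := mul_le_mul_of_nonneg_right (by linarith) (by linarith)
        have h7 : (w0:ℝ) ≤ H := hw0P.trans hwPH
        have h9 : (H:ℝ) ≤ C * H := le_mul_of_one_le_left (by linarith) hC
        have h10 : 100 * (C * H) ≤ n * (C * H) := mul_le_mul_of_nonneg_right hn0 (by positivity)
        have h11 : (C * n + 1) * H = C * n * H + H := by ring
        have h12 : (n:ℝ) * (C * H) = C * n * H := by ring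
        have h13 : 8 * C * n * H = 8 * (C * n * H) := by ring
        have h14 : 4 * C * H = 4 * (C * H) := by ring
        rw [h11] at h6
        rw [h12] at h10
        rw [h13]
        rw [h14] at hDH
        linarith
      exact_mod_cast h5
    refine (fp_l1 f P w0 Xf (⌊Real.exp u⌋₊ + 1) (⌊D⌋₊ + 1) L hL0.le hP hf h4).trans ?_
    have h5 : (P:ℝ) * (((⌊D⌋₊ + 1 : ℕ) : ℝ) / P + 1 + w0) = (⌊D⌋₊ : ℝ) + 1 + P + w0 * P := by
      push_cast
      field_simp
    rw [h5]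
    have h6 : (⌊D⌋₊ : ℝ) + 1 + P + w0 * P ≤ 8 * C * H / L ^ C3 := by
      have h7 : H / L ^ (A + C2 + 4) ≤ H / L ^ C3 := by
        refine div_le_div_of_nonneg_left (by linarith) (by positivity) ?_
        exact pow_le_pow_right₀ (by linarith) (by omega)
      have h8 : (⌊D⌋₊ : ℝ) + 1 + P + w0 * P ≤ D + 3 * (H / L ^ C3) := by linarith
      refine h8.trans ?_
      rw [hD]
      have h9 : 4 * C * H / L ^ C3 + 3 * (H / L ^ C3) = (4 * C * H + 3 * H) / L ^ C3 := by ring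
      rw [h9]
      refine div_le_div_of_nonneg_right ?_ (by positivity)
      nlinarith
    calc ((⌊D⌋₊ : ℝ) + 1 + P + w0 * P) * L ^ 2 ≤ (8 * C * H / L ^ C3) * L ^ 2 :=
          mul_le_mul_of_nonneg_right h6 (by positivity)
      _ = B0 := by rw [hB0]; ring
  have hL1sum : ∑ m ∈ I, |Fp f P m| ≤ 3 * H * L ^ 2 := by
    have h1 : I = Ico (i * H) (i * H + H) := by rw [hI]; congr 1; ring
    rw [h1]
    have h4 : i * H + H + w0 + 2 ≤ Xf := by
      have h5 : ((i * H + H + w0 + 2 : ℕ) : ℝ) ≤ Xf := by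
        push_cast
        refine le_trans ?_ hXf
        have h6 : (i:ℝ) * H ≤ C * n * H := mul_le_mul_of_nonneg_right hi2 (by linarith)
        have h7 : (w0:ℝ) ≤ H := hw0P.trans hwPH
        have h9 : (H:ℝ) ≤ C * H := le_mul_of_one_le_left (by linarith) hC
        have h10 : 100 * (C * H) ≤ n * (C * H) := mul_le_mul_of_nonneg_right hn0 (by positivity)
        have h12 : (n:ℝ) * (C * H) = C * n * H := by ring
        have h13 : 8 * C * n * H = 8 * (C * n * H) := by ring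
        rw [h12] at h10
        rw [h13]
        linarith
      exact_mod_cast h5
    refine (fp_l1 f P w0 Xf (i * H) H L hL0.le hP hf h4).trans ?_
    have h5 : (P:ℝ) * ((H:ℝ) / P + 1 + w0) = H + P + w0 * P := by
      field_simp
    rw [h5]
    refine mul_le_mul_of_nonneg_right ?_ (by positivity)
    linarith
  set κ : ℝ := 16 * Real.pi * C ^ 3 / L ^ (A + 3) with hκ
  have hκ0 : 0 ≤ κ := by positivity
  have hphase : ∀ (u : ℝ) (m : ℕ), lo ≤ u → u ≤ hi → m ∈ I →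
      (u < Real.log m ∧ Real.log m ≤ u + θ) → ‖ee (φ m) - ee (φ (Real.exp u))‖ ≤ κ := by
    intro u m hu1 hu2 hm h
    obtain ⟨h1, h2⟩ := hq u m hu2 (hI1 m hm) h
    have h3 : x0 ≤ Real.exp u := by
      rw [← Real.exp_log hx0p]; exact Real.exp_le_exp.mpr hu1
    have h4 := hIhi m hm
    have h5 := Win_lip T ρ x0 H (Real.exp u) m hx0p (by linarith) h3 h1.le (by linarith)
    have h6 : |T| * H / x0 ^ 2 + |ρ| ≤ (C ^ 2 + 1) * L ^ C2 / H := by
      have h7 : |T| * H / x0 ^ 2 ≤ C ^ 2 * L ^ C2 / H := by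
        rw [hx0, mul_pow, div_le_div_iff₀ (by positivity) (by positivity)]
        have h8 : (n:ℝ) ≤ C * i := by
          rw [div_le_iff₀ (by linarith)] at hi1; linarith
        have h9 : (n:ℝ) ^ 2 ≤ C ^ 2 * i ^ 2 := by
          rw [← mul_pow]; exact pow_le_pow_left₀ (by linarith) h8 2
        have h10 : |T| ≤ L ^ C2 * (C ^ 2 * i ^ 2) :=
          hT.trans (mul_le_mul_of_nonneg_left h9 (by positivity))
        calc |T| * H * H ≤ (L ^ C2 * (C ^ 2 * i ^ 2)) * H * H := by gcongr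
          _ = C ^ 2 * L ^ C2 * ((i:ℝ) ^ 2 * (H:ℝ) ^ 2) := by ring
      calc |T| * H / x0 ^ 2 + |ρ| ≤ C ^ 2 * L ^ C2 / H + L ^ C2 / H := add_le_add h7 hρ1
        _ = _ := by ring
    refine (Win_ee_sub _ _).trans ?_
    have h7 : |φ m - φ (Real.exp u)| ≤ (C ^ 2 + 1) * L ^ C2 / H * D := by
      refine h5.trans ?_
      refine mul_le_mul h6 (by linarith) (by linarith) (by positivity)
    have h8 : (C ^ 2 + 1) * L ^ C2 / H * D = 4 * C * (C ^ 2 + 1) / L ^ (A + 3) := by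
      rw [hD, hC3d]
      have : L ^ (A + C2 + 3) = L ^ C2 * L ^ (A + 3) := by rw [← pow_add]; congr 1; ring
      rw [this]
      field_simp
    rw [h8] at h7
    have h9 : 4 * C * (C ^ 2 + 1) / L ^ (A + 3) ≤ 8 * C ^ 3 / L ^ (A + 3) := by
      refine div_le_div_of_nonneg_right ?_ (by positivity)
      nlinarith
    calc 2 * Real.pi * |φ m - φ (Real.exp u)| ≤ 2 * Real.pi * (8 * C ^ 3 / L ^ (A + 3)) :=
          mul_le_mul_of_nonneg_left (h7.trans h9) (by positivity)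
      _ = κ := by rw [hκ]; ring
  -- pointwise bound
  have hnc : ∀ m : ℕ, ‖c m‖ = |Fp f P m| := by
    intro m
    rw [hc]
    show ‖cc f P a T m * ee (φ m)‖ = _
    rw [norm_mul, Win_norm_ee, mul_one, Win_norm_cc]
  have hSle : ∀ u : ℝ, u ≤ hi → ‖S u‖ ≤ B0 := by
    intro u hu
    have h1 : S u = ∑ m ∈ I.filter (fun m : ℕ => u < Real.log m ∧ Real.log m ≤ u + θ), c m :=
      Win_ind_filter I c θ u
    rw [h1]
    refine (norm_sum_le _ _).trans ?_
    simp only [hnc]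
    exact hwin u hu
  have hkey : ∀ u ∈ Set.Ico (lo - θ) hi, ‖S u‖ ≤
      (Set.Ico lo (hi - θ)).indicator (fun u => ‖Dw (cc f P a T) X θ u‖) u +
      κ * ∑ m ∈ I, (Set.Ico (Real.log m - θ) (Real.log m)).indicator (fun _ => |Fp f P m|) u +
      (Set.Ico (lo - θ) lo).indicator (fun _ => B0) u + (Set.Ico (hi - θ) hi).indicator (fun _ => B0) u := by
    intro u hu
    have n1 : 0 ≤ (Set.Ico lo (hi - θ)).indicator (fun u => ‖Dw (cc f P a T) X θ u‖) u :=
      Set.indicator_nonneg (fun _ _ => norm_nonneg _) _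
    have n2 : 0 ≤ κ * ∑ m ∈ I, (Set.Ico (Real.log m - θ) (Real.log m)).indicator (fun _ => |Fp f P m|) u :=
      mul_nonneg hκ0 (sum_nonneg (fun m _ => Set.indicator_nonneg (fun _ _ => abs_nonneg _) _))
    have n3 : 0 ≤ (Set.Ico (lo - θ) lo).indicator (fun _ => B0) u :=
      Set.indicator_nonneg (fun _ _ => hB0') _
    have n4 : 0 ≤ (Set.Ico (hi - θ) hi).indicator (fun _ => B0) u :=
      Set.indicator_nonneg (fun _ _ => hB0') _
    by_cases c1 : u < lo
    · have : (Set.Ico (lo - θ) lo).indicator (fun _ => B0) u = B0 :=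
        Set.indicator_of_mem (show u ∈ Set.Ico (lo - θ) lo from ⟨hu.1, c1⟩) _
      have h2 := hSle u hu.2.le
      linarith
    by_cases c2 : hi - θ ≤ u
    · have : (Set.Ico (hi - θ) hi).indicator (fun _ => B0) u = B0 :=
        Set.indicator_of_mem (show u ∈ Set.Ico (hi - θ) hi from ⟨c2, hu.2⟩) _
      have h2 := hSle u hu.2.le
      linarith
    push Not at c1 c2
    have e1 : (Set.Ico lo (hi - θ)).indicator (fun u => ‖Dw (cc f P a T) X θ u‖) u =
        ‖Dw (cc f P a T) X θ u‖ := Set.indicator_of_mem (show u ∈ Set.Ico lo (hi - θ) from ⟨c1, c2⟩) _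
    have hJ : (Icc 1 X).filter (fun m : ℕ => u < Real.log m ∧ Real.log m ≤ u + θ) =
        I.filter (fun m : ℕ => u < Real.log m ∧ Real.log m ≤ u + θ) := by
      ext m
      rw [mem_filter, mem_filter]
      constructor
      · rintro ⟨h1, h2⟩
        rw [mem_Icc] at h1
        refine ⟨?_, h2⟩
        have hm0 : (0:ℝ) < m := by exact_mod_cast h1.1
        have h3 : x0 < m := by
          rw [← Real.exp_log hm0, ← Real.exp_log hx0p]
          exact Real.exp_lt_exp.mpr (lt_of_le_of_lt c1 h2.1)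
        have h4 : (m:ℝ) < y0 := by
          rw [← Real.exp_log hm0, ← Real.exp_log hy0p]
          exact Real.exp_lt_exp.mpr (by linarith [h2.2])
        rw [hI, mem_Ico]
        constructor
        · have : ((i * H : ℕ) : ℝ) ≤ m := by push_cast; exact h3.le
          exact_mod_cast this
        · have : (m:ℝ) < (((i + 1) * H : ℕ) : ℝ) := by push_cast; exact h4
          exact_mod_cast this
      · rintro ⟨h1, h2⟩
        refine ⟨?_, h2⟩
        rw [mem_Icc]
        refine ⟨hI1 m h1, ?_⟩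
        have h3 := hIhi m h1
        have h4 : y0 ≤ X := by
          refine le_trans ?_ hX
          rw [hy0]
          refine mul_le_mul_of_nonneg_right ?_ (by linarith)
          nlinarith
        have : (m:ℝ) ≤ X := by linarith
        exact_mod_cast this
    have e2 : Dw (cc f P a T) X θ u =
        ∑ m ∈ I.filter (fun m : ℕ => u < Real.log m ∧ Real.log m ≤ u + θ), cc f P a T m := by
      rw [← hJ]; rfl
    have e3 : S u = ∑ m ∈ I.filter (fun m : ℕ => u < Real.log m ∧ Real.log m ≤ u + θ), c m :=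
      Win_ind_filter I c θ u
    have e4 : S u - ee (φ (Real.exp u)) * Dw (cc f P a T) X θ u =
        ∑ m ∈ I.filter (fun m : ℕ => u < Real.log m ∧ Real.log m ≤ u + θ),
          cc f P a T m * (ee (φ m) - ee (φ (Real.exp u))) := by
      rw [e2, e3, mul_sum, ← sum_sub_distrib]
      refine sum_congr rfl (fun m _ => ?_)
      rw [hc]
      ring
    have e5 : ‖S u - ee (φ (Real.exp u)) * Dw (cc f P a T) X θ u‖ ≤
        κ * ∑ m ∈ I, (Set.Ico (Real.log m - θ) (Real.log m)).indicator (fun _ => |Fp f P m|) u := by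
      rw [e4, Win_ind_filter, mul_sum]
      refine (norm_sum_le _ _).trans (sum_le_sum (fun m hm => ?_))
      rw [mem_filter] at hm
      rw [norm_mul, Win_norm_cc, mul_comm]
      exact mul_le_mul_of_nonneg_right (hphase u m c1 hu.2.le hm.1 hm.2) (abs_nonneg _)
    have e6 : ‖S u‖ ≤ ‖S u - ee (φ (Real.exp u)) * Dw (cc f P a T) X θ u‖ +
        ‖Dw (cc f P a T) X θ u‖ := by
      calc ‖S u‖ = ‖(S u - ee (φ (Real.exp u)) * Dw (cc f P a T) X θ u) +
            ee (φ (Real.exp u)) * Dw (cc f P a T) X θ u‖ := by congr 1; ring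
        _ ≤ ‖S u - ee (φ (Real.exp u)) * Dw (cc f P a T) X θ u‖ +
            ‖ee (φ (Real.exp u)) * Dw (cc f P a T) X θ u‖ := norm_add_le _ _
        _ = _ := by rw [norm_mul, Win_norm_ee, one_mul]
    rw [e1]
    linarith
  -- integrate
  have hDwint : ∀ s : Set ℝ, MeasurableSet s → volume s ≠ ⊤ →
      IntegrableOn (fun u => ‖Dw (cc f P a T) X θ u‖) s := by
    intro s hs hvs
    refine Integrable.norm ?_
    have h1 : Dw (cc f P a T) X θ = fun u =>
        ∑ m ∈ Icc 1 X, (Set.Ico (Real.log m - θ) (Real.log m)).indicator (fun _ => cc f P a T m) u := by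
      funext u
      exact Win_Dw _ _ _ _
    rw [h1]
    refine integrable_finsetSum _ (fun m _ => ?_)
    refine Integrable.indicator ?_ measurableSet_Ico
    exact integrableOn_const hvs
  have hI0 : IntegrableOn (fun u => (Set.Ico lo (hi - θ)).indicator (fun u => ‖Dw (cc f P a T) X θ u‖) u)
      (Set.Ico (lo - θ) hi) :=
    Integrable.indicator (hDwint _ measurableSet_Ico (by rw [Real.volume_Ico]; exact ENNReal.ofReal_ne_top))
      measurableSet_Ico
  have hI2a : Integrable (fun u => ∑ m ∈ I, (Set.Ico (Real.log m - θ) (Real.log m)).indicator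
      (fun _ => |Fp f P m|) u) (volume.restrict (Set.Ico (lo - θ) hi)) :=
    integrable_finsetSum _ (fun m _ => hfin _ _ measurableSet_Ico _ _)
  have hI2 : IntegrableOn (fun u => κ * ∑ m ∈ I, (Set.Ico (Real.log m - θ) (Real.log m)).indicator
      (fun _ => |Fp f P m|) u) (Set.Ico (lo - θ) hi) :=
    hI2a.const_mul κ
  have hI3 : IntegrableOn (fun u => (Set.Ico (lo - θ) lo).indicator (fun _ => B0) u) (Set.Ico (lo - θ) hi) :=
    hfin _ _ measurableSet_Ico _ _
  have hI4 : IntegrableOn (fun u => (Set.Ico (hi - θ) hi).indicator (fun _ => B0) u) (Set.Ico (lo - θ) hi) :=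
    hfin _ _ measurableSet_Ico _ _
  have hSi : IntegrableOn S (Set.Ico (lo - θ) hi) := by
    have h1 : Integrable (fun u => ∑ m ∈ I,
        (Set.Ico (Real.log m - θ) (Real.log m)).indicator (fun _ => c m) u)
        (volume.restrict (Set.Ico (lo - θ) hi)) :=
      integrable_finsetSum _ (fun m _ => hfin _ _ measurableSet_Ico _ _)
    exact h1
  have f1 : ∫ u in Set.Ico (lo - θ) hi, ‖S u‖ ≤ ∫ u in Set.Ico (lo - θ) hi,
      ((Set.Ico lo (hi - θ)).indicator (fun u => ‖Dw (cc f P a T) X θ u‖) u +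
      κ * ∑ m ∈ I, (Set.Ico (Real.log m - θ) (Real.log m)).indicator (fun _ => |Fp f P m|) u +
      (Set.Ico (lo - θ) lo).indicator (fun _ => B0) u + (Set.Ico (hi - θ) hi).indicator (fun _ => B0) u) :=
    setIntegral_mono_on hSi.norm (((hI0.add hI2).add hI3).add hI4) measurableSet_Ico hkey
  have g3 : ∫ u in Set.Ico (lo - θ) hi, (Set.Ico (lo - θ) lo).indicator (fun _ => B0) u = θ * B0 := by
    rw [Win_int_ind _ _ _ _ le_rfl hlohi hθ0.le, smul_eq_mul]
  have g4 : ∫ u in Set.Ico (lo - θ) hi, (Set.Ico (hi - θ) hi).indicator (fun _ => B0) u = θ * B0 := by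
    rw [Win_int_ind _ _ _ _ (by linarith) le_rfl hθ0.le, smul_eq_mul]
  have g2 : ∫ u in Set.Ico (lo - θ) hi, κ * ∑ m ∈ I, (Set.Ico (Real.log m - θ) (Real.log m)).indicator
      (fun _ => |Fp f P m|) u = κ * (θ * ∑ m ∈ I, |Fp f P m|) := by
    rw [integral_const_mul, integral_finsetSum _ (fun m _ => hfin _ _ measurableSet_Ico _ _)]
    have e7 : ∑ m ∈ I, ∫ u in Set.Ico (lo - θ) hi, (Set.Ico (Real.log m - θ) (Real.log m)).indicator
        (fun _ => |Fp f P m|) u = θ * ∑ m ∈ I, |Fp f P m| := by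
      rw [mul_sum]
      refine sum_congr rfl (fun m hm => ?_)
      obtain ⟨h1, h2⟩ := hlogm m hm
      rw [Win_int_ind _ _ _ _ (by linarith) h2 hθ0.le, smul_eq_mul]
    rw [e7]
  have g1 : ∫ u in Set.Ico (lo - θ) hi, (Set.Ico lo (hi - θ)).indicator
      (fun u => ‖Dw (cc f P a T) X θ u‖) u ≤ ∫ u in Set.Icc lo hi, ‖Dw (cc f P a T) X θ u‖ := by
    rw [integral_indicator measurableSet_Ico, Measure.restrict_restrict measurableSet_Ico]
    refine setIntegral_mono_set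
      (hDwint _ measurableSet_Icc (by rw [Real.volume_Icc]; exact ENNReal.ofReal_ne_top))
      (Filter.Eventually.of_forall (fun _ => norm_nonneg _)) ?_
    refine Filter.Eventually.of_forall (fun u hu => ?_)
    exact ⟨hu.1.1, by have := hu.1.2; linarith⟩
  have f2 : ∫ u in Set.Ico (lo - θ) hi,
      ((Set.Ico lo (hi - θ)).indicator (fun u => ‖Dw (cc f P a T) X θ u‖) u +
      κ * ∑ m ∈ I, (Set.Ico (Real.log m - θ) (Real.log m)).indicator (fun _ => |Fp f P m|) u +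
      (Set.Ico (lo - θ) lo).indicator (fun _ => B0) u + (Set.Ico (hi - θ) hi).indicator (fun _ => B0) u) ≤
      (∫ u in Set.Icc lo hi, ‖Dw (cc f P a T) X θ u‖) + κ * (θ * ∑ m ∈ I, |Fp f P m|) + θ * B0 + θ * B0 := by
    have k1 := integral_add (μ := volume.restrict (Set.Ico (lo - θ) hi)) ((hI0.add hI2).add hI3) hI4
    have k2 := integral_add (μ := volume.restrict (Set.Ico (lo - θ) hi)) (hI0.add hI2) hI3
    have k3 := integral_add (μ := volume.restrict (Set.Ico (lo - θ) hi)) hI0 hI2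
    simp only [Pi.add_apply] at k1 k2 k3
    rw [k1, k2, k3, g2, g3, g4]
    linarith
  have f3 : θ * (H / L ^ A) ≤ ∫ u in Set.Ico (lo - θ) hi, ‖S u‖ := by
    refine le_trans ?_ (norm_integral_le_integral_norm _)
    rw [hSint, norm_smul, Real.norm_of_nonneg hθ0.le, ← hBsc]
    exact mul_le_mul_of_nonneg_left hBs hθ0.le
  -- numerics
  have q1 : κ * (θ * ∑ m ∈ I, |Fp f P m|) ≤ θ * (H / L ^ A) * (48 * Real.pi * C ^ 3 / L) := by
    have h1 : κ * (θ * ∑ m ∈ I, |Fp f P m|) ≤ κ * (θ * (3 * H * L ^ 2)) :=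
      mul_le_mul_of_nonneg_left (mul_le_mul_of_nonneg_left hL1sum hθ0.le) hκ0
    refine h1.trans (le_of_eq ?_)
    rw [hκ]
    have : L ^ (A + 3) = L ^ A * L ^ 2 * L := by rw [← pow_add, ← pow_succ]
    rw [this]
    field_simp
    ring
  have q2 : θ * B0 + θ * B0 ≤ θ * (H / L ^ A) * (16 * C / L) := by
    have h1 : B0 ≤ (H / L ^ A) * (8 * C / L) := by
      rw [hB0]
      have h2 : L ^ C3 = L ^ A * L * L ^ 2 * L ^ C2 := by
        rw [hC3d, ← pow_succ, ← pow_add, ← pow_add]; congr 1; ring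
      rw [h2]
      have h3 : 8 * C * H * L ^ 2 / (L ^ A * L * L ^ 2 * L ^ C2) = (H / L ^ A) * (8 * C / L) / L ^ C2 := by
        field_simp
      rw [h3]
      exact div_le_self (by positivity) (hLp _)
    have h2 := mul_le_mul_of_nonneg_left h1 hθ0.le
    calc θ * B0 + θ * B0 = 2 * (θ * B0) := by ring
      _ ≤ 2 * (θ * ((H / L ^ A) * (8 * C / L))) := by linarith
      _ = _ := by ring
  have q3 : 48 * Real.pi * C ^ 3 / L + 16 * C / L ≤ 1 / 2 := by
    rw [← add_div, div_le_div_iff₀ hL0 (by norm_num)]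
    have := Real.pi_lt_d2
    nlinarith
  have q4 : 0 ≤ θ * (H / L ^ A) := by positivity
  have q5 := mul_le_mul_of_nonneg_left q3 q4
  have q6 : 1 / (n * L ^ C3) * H / (2 * L ^ A) = θ * (H / L ^ A) * (1 / 2) := by
    rw [hθ]
    field_simp
  have q7 : θ * (H / L ^ A) * (1 / 2) ≤ ∫ u in Set.Icc lo hi, ‖Dw (cc f P a T) X θ u‖ := by
    have := f3.trans (f1.trans f2)
    nlinarith
  rw [q6]
  exact q7

end Pool.Agent.H53.MID
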